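import Pool.Agent.Helper75.CS.Goals

/-! # CS-CSNUM: elementary properties of the largest size of a cap set -/

set_option autoImplicit false

open Finset

namespace Pool.Agent.Helper53.CS

open Pool.Agent.Helper75.CS

theorem bdd (r : ℕ) :
    BddAbove {k | ∃ A : Finset (Fin r → ZMod 3), A.card = k ∧ WeakFree A} := by
  refine ⟨Fintype.card (Fin r → ZMod 3), ?_⟩
  rintro k ⟨A, rfl, _⟩
  exact Finset.card_le_univ A

theorem le_cap {r : ℕ} {A : Finset (Fin r → ZMod 3)} (h : WeakFree A) : A.card ≤ capNum r :=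
  le_csSup (bdd r) ⟨A, rfl, h⟩

theorem attained (r : ℕ) : ∃ A : Finset (Fin r → ZMod 3), A.card = capNum r ∧ WeakFree A := by
  have h0 : {k | ∃ A : Finset (Fin r → ZMod 3), A.card = k ∧ WeakFree A}.Nonempty :=
    ⟨0, ∅, rfl, fun a ha => absurd ha (Finset.notMem_empty a)⟩
  exact Nat.sSup_mem h0 (bdd r)

theorem weak_of_cap {G : Type*} [AddCommGroup G] {A : Finset G} (h : Cap A) : WeakFree A :=
  fun a ha b hb c hc hab _ _ h0 => hab (h a ha b hb c hc h0).1

theorem z3 : ∀ x y : ZMod 3, x + x + y = 0 → y = x := by decide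

theorem three {r : ℕ} {x y : Fin r → ZMod 3} (h : x + x + y = 0) : y = x := by
  funext i
  exact z3 (x i) (y i) (congrFun h i)

theorem cap_of_weak {r : ℕ} {A : Finset (Fin r → ZMod 3)} (h : WeakFree A) : Cap A := by
  intro a ha b hb c hc h0
  by_cases hab : a = b
  · subst hab
    have h1 : c = a := three h0
    exact ⟨rfl, h1.symm⟩
  · exfalso
    by_cases hbc : b = c
    · subst hbc
      have h1 : a = b := three (by rw [← h0]; abel)
      exact hab h1
    · by_cases hac : a = c
      · subst hac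
        have h1 : b = a := three (by rw [← h0]; abel)
        exact hab h1.symm
      · exact h a ha b hb c hc hab hbc hac h0

theorem weak_map {G H : Type*} [AddCommGroup G] [AddCommGroup H] {A : Finset G}
    (f : G → H) (hf : Function.Injective f) (hadd : ∀ a b, f (a + b) = f a + f b)
    (h0 : f 0 = 0) (h : WeakFree A) : WeakFree (A.map ⟨f, hf⟩) := by
  intro a ha b hb c hc hab hbc hac hs
  obtain ⟨a', ha', rfl⟩ := Finset.mem_map.1 ha
  obtain ⟨b', hb', rfl⟩ := Finset.mem_map.1 hb
  obtain ⟨c', hc', rfl⟩ := Finset.mem_map.1 hc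
  change f a' + f b' + f c' = 0 at hs
  rw [← hadd, ← hadd, ← h0] at hs
  exact h a' ha' b' hb' c' hc' (fun e => hab (by rw [e])) (fun e => hbc (by rw [e]))
    (fun e => hac (by rw [e])) (hf hs)

theorem part1 (V : Type) (_ : AddCommGroup V) (_ : Module (ZMod 3) V)
    (_ : Module.Finite (ZMod 3) V) (A : Finset V) (hA : Cap A) :
    A.card ≤ capNum (Module.finrank (ZMod 3) V) := by
  have : Fact (Nat.Prime 3) := ⟨by norm_num⟩
  let e := (Module.finBasis (ZMod 3) V).equivFun
  have h1 := weak_map (e : V → (Fin (Module.finrank (ZMod 3) V) → ZMod 3)) e.injective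
    (fun a b => map_add e a b) (map_zero e) (weak_of_cap hA)
  have h2 := le_cap h1
  rwa [Finset.card_map] at h2

theorem part2 (r s : ℕ) (h : r ≤ s) : capNum r ≤ capNum s := by
  obtain ⟨A, hA, hw⟩ := attained r
  let f : (Fin r → ZMod 3) → (Fin s → ZMod 3) :=
    fun v i => if hi : (i : ℕ) < r then v ⟨i, hi⟩ else 0
  have hf : Function.Injective f := by
    intro v w hvw
    funext i
    have h1 := congrFun hvw (Fin.castLE h i)
    have h2 : ((Fin.castLE h i : Fin s) : ℕ) < r := i.2
    change (if hi : ((Fin.castLE h i : Fin s) : ℕ) < r then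
      v ⟨((Fin.castLE h i : Fin s) : ℕ), hi⟩ else 0) =
      (if hi : ((Fin.castLE h i : Fin s) : ℕ) < r then
      w ⟨((Fin.castLE h i : Fin s) : ℕ), hi⟩ else 0) at h1
    rw [dif_pos h2, dif_pos h2] at h1
    exact h1
  have h1 := weak_map f hf (fun a b => by
    funext i
    change (if hi : (i : ℕ) < r then (a + b) ⟨i, hi⟩ else 0) =
      (if hi : (i : ℕ) < r then a ⟨i, hi⟩ else 0) + (if hi : (i : ℕ) < r then b ⟨i, hi⟩ else 0)
    split_ifs
    · rfl
    · rw [add_zero]) (by
    funext i
    change (if hi : (i : ℕ) < r then (0 : Fin r → ZMod 3) ⟨i, hi⟩ else 0) = (0 : ZMod 3)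
    split_ifs <;> rfl) hw
  have h2 := le_cap h1
  rwa [Finset.card_map, hA] at h2

theorem part3 (D k : ℕ) : capNum D ^ k ≤ capNum (k * D) := by
  have : Fact (Nat.Prime 3) := ⟨by norm_num⟩
  obtain ⟨A, hA, hw⟩ := attained D
  have hc := cap_of_weak hw
  have h1 : Cap (Fintype.piFinset (fun _ : Fin k => A)) := by
    intro a ha b hb c hc' h0
    rw [Fintype.mem_piFinset] at ha hb hc'
    constructor
    · funext i
      exact (hc (a i) (ha i) (b i) (hb i) (c i) (hc' i) (congrFun h0 i)).1
    · funext i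
      exact (hc (a i) (ha i) (b i) (hb i) (c i) (hc' i) (congrFun h0 i)).2
  have h2 := part1 (Fin k → Fin D → ZMod 3) inferInstance inferInstance inferInstance _ h1
  rw [Fintype.card_piFinset_const, hA] at h2
  have h3 : Module.finrank (ZMod 3) (Fin k → Fin D → ZMod 3) = k * D := by
    rw [Module.finrank_pi_fintype]
    simp
  rwa [h3] at h2

theorem part4 (r : ℕ) : 1 ≤ capNum r := by
  have h1 : WeakFree ({0} : Finset (Fin r → ZMod 3)) := by
    intro a ha b hb _ _ hab
    rw [Finset.mem_singleton] at ha hb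
    exact absurd (ha.trans hb.symm) hab
  have h2 := le_cap h1
  rwa [Finset.card_singleton] at h2

theorem csnum : S_CSNUM := ⟨part1, part2, part3, part4⟩

end Pool.Agent.Helper53.CS
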