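import Pool.Agent.Helper6.CS.Goals1

/-!
# CS-LHS: the induction step for level homogeneous systems
-/

namespace Pool.Agent.Helper53.CS

open Pool.Agent.Helper6.CS

set_option synthInstance.maxSize 1000000000

theorem t_LHS : G_CDF → G_LHS := by
  intro hCDF M _ L b hL hSH hLH k r
  obtain ⟨N₂, hN₂⟩ := hLH k r
  obtain ⟨N₁, hN₁⟩ := hSH N₂ r
  refine ⟨N₁, ?_⟩
  intro e he
  obtain ⟨h₁, hs1, hinv⟩ := hN₁ e he
  obtain ⟨e₂, he₂⟩ := (hCDF M L N₂).1 (fun z => apn e (apw h₁ z)) inferInstance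
  have h12 : b + 1 ≤ b + 2 := by
    have : (b : M) + 2 = b + 1 + 1 := by ring
    rw [this]
    exact le_add_of_nonneg_right zero_le_one
  have hcol : ColB L N₂ r e₂ := by
    intro z hz hzl
    rw [he₂ z hz hzl]
    obtain ⟨h3, h4⟩ := hs1.1 z L hL le_rfl hz hzl
    exact he _ h3 h4
  obtain ⟨h₂, hs2, hhom⟩ := hN₂ e₂ hcol
  obtain ⟨h, hh⟩ := (hCDF M L k).2 (fun a => apw h₁ (apw h₂ a)) inferInstance
  have hw2 : ∀ a : Wd M, Over L a → a.len ≤ k → Over L (apw h₂ a) ∧ (apw h₂ a).len ≤ N₂ :=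
    fun a ha hl => hs2.1 a L (h12.trans hL) le_rfl ha hl
  have hb1L : b + 1 < L := by
    refine lt_of_lt_of_le ?_ hL
    have : (b : M) + 2 = b + 1 + 1 := by ring
    rw [this]
    exact (World.lt_succ _ _).2 le_rfl
  have hbL : b < L := lt_of_le_of_lt (le_add_of_nonneg_right zero_le_one) hb1L
  refine ⟨h, ⟨?_, ?_, ?_⟩, ?_⟩
  · intro a c hc hcL ha hl
    have haL : Over L a := ha.mono hcL
    obtain ⟨h3, h4⟩ := hs2.1 a c (h12.trans hc) hcL ha hl
    rw [hh a haL hl]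
    exact hs1.1 _ c hc hcL h3 h4
  · intro a x c ha hl hx hxL hcL
    have hs : Over L (Wd.sub x c a) := Over.sub' hcL ha
    obtain ⟨h3, h4⟩ := hw2 a ha hl
    rw [hh a ha hl, hh _ hs (by rwa [Wd.len_sub]), hs2.2.1 a x c ha hl (h12.trans hx) hxL hcL,
      hs1.2.1 _ x c h3 h4 hx hxL hcL]
  · intro a e' a' ha he' ha' hl
    have hfull : Over L (a ++ Wd.sg e' ++ a') :=
      Over.append_iff.2 ⟨Over.append_iff.2 ⟨ha, Over.sg_iff.2 he'⟩, ha'⟩
    have hfl : (a ++ Wd.sg e' ++ a').len ≤ k := by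
      rw [Wd.len_append, Wd.len_append, Wd.len_sg, add_assoc, add_comm 1 a'.len]
      exact hl
    have hal : a.len ≤ k :=
      le_trans (le_add_of_nonneg_right (World.zero_le' _)) hl
    obtain ⟨z₂, hz₂, hz₂'⟩ := hs2.2.2 a e' a' ha he' ha' hl
    obtain ⟨h3, h4⟩ := hw2 a ha hal
    obtain ⟨h5, h6⟩ := hw2 _ hfull hfl
    have h7 : (apw h₂ a).len + (z₂.len + 1) ≤ N₂ := by
      rw [hz₂', Wd.len_append, Wd.len_append, Wd.len_sg, add_assoc, add_comm 1 z₂.len] at h6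
      exact h6
    obtain ⟨z, hz, hz'⟩ := hs1.2.2 (apw h₂ a) e' z₂ h3 he' hz₂ h7
    refine ⟨z, hz, ?_⟩
    rw [hh _ hfull hfl, hh a ha hal, hz₂', hz']
  · have key : ∀ a : Wd M, Over (b + 2) a → a.len ≤ k →
        apn e (apw h a) = apn e₂ (apw h₂ (Wd.sub (b + 1) b a)) ∧
          Over (b + 1) (Wd.sub (b + 1) b a) := by
      intro a ha hl
      have haL : Over L a := ha.mono hL
      obtain ⟨h3, h4⟩ := hw2 a haL hl
      have hs : Over L (Wd.sub (b + 1) b a) := Over.sub' hbL haL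
      obtain ⟨h5, h6⟩ := hw2 _ hs (by rwa [Wd.len_sub])
      refine ⟨?_, ?_⟩
      · rw [hh a haL hl, hinv _ h3 h4, ← hs2.2.1 a (b + 1) b haL hl le_rfl hb1L hbL, he₂ _ h5 h6]
      · refine Over.sub ?_ ?_
        · exact (World.lt_succ _ _).2 le_rfl
        · have : (b : M) + 2 = b + 1 + 1 := by ring
          rwa [← this]
    intro a a' ha ha' hl hll
    obtain ⟨h3, h4⟩ := key a ha hl
    obtain ⟨h5, h6⟩ := key a' ha' (hll ▸ hl)
    rw [h3, h5]
    exact hhom _ _ h4 h6 (by rwa [Wd.len_sub]) (by rw [Wd.len_sub, Wd.len_sub, hll])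

end Pool.Agent.Helper53.CS
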